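import Pool.Agent.Helper98.LogPoly.Defs

/-! Piece P10 COARSE of MP_b30792_pr: coarse graining with fractional moment 1/2. -/

set_option autoImplicit false

namespace Pool.Agent.Helper98.LogPoly

open MeasureTheory ProbabilityTheory Filter
open scoped ENNReal NNReal Topology

namespace CG

/-- concatenation of the first `M` slices of `e` with `e'` -/
def cat (M : ℕ) (e e' : ℕ → Pt → ℝ) : ℕ → Pt → ℝ := fun n => if n < M then e n else e' (n - M)

lemma measurable_cat (M : ℕ) :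
    Measurable (fun p : (ℕ → Pt → ℝ) × (ℕ → Pt → ℝ) => cat M p.1 p.2) := by
  refine measurable_pi_lambda _ fun n => ?_
  unfold cat
  by_cases h : n < M
  · simp only [h, if_true]
    exact (measurable_pi_apply n).comp measurable_fst
  · simp only [h, if_false]
    exact (measurable_pi_apply (n - M)).comp measurable_snd

instance (ν : Measure (Pt → ℝ)) [IsProbabilityMeasure ν] : IsProbabilityMeasure (muE ν) := by
  unfold muE
  infer_instance

lemma map_cat (ν : Measure (Pt → ℝ)) [IsProbabilityMeasure ν] (M : ℕ) :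
    ((muE ν).prod (muE ν)).map (fun p => cat M p.1 p.2) = muE ν := by
  refine Measure.eq_infinitePi (fun _ : ℕ => ν) fun s t ht => ?_
  classical
  obtain ⟨N, hN⟩ : ∃ N, s ⊆ Finset.range (M + N) := by
    refine ⟨s.sup id + 1, fun i hi => ?_⟩
    have := Finset.le_sup (f := id) hi
    simp only [id] at this
    simp only [Finset.mem_range]
    omega
  set t' : ℕ → Set (Pt → ℝ) := fun i => if i ∈ s then t i else Set.univ with ht'
  have ht'm : ∀ i, MeasurableSet (t' i) := by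
    intro i
    simp only [ht']
    split_ifs
    · exact ht i
    · exact MeasurableSet.univ
  have h1 : Set.pi (s : Set ℕ) t = Set.pi (Finset.range (M + N) : Set ℕ) t' := by
    ext x
    simp only [Set.mem_pi, Finset.mem_coe, ht']
    constructor
    · intro h i _
      split_ifs with hi
      · exact h i hi
      · exact Set.mem_univ _
    · intro h i hi
      have := h i (hN hi)
      rwa [if_pos hi] at this
  have h2 : ∏ i ∈ s, ν (t i) = ∏ i ∈ Finset.range (M + N), ν (t' i) := by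
    symm
    rw [← Finset.prod_subset hN]
    · refine Finset.prod_congr rfl fun i hi => ?_
      simp only [ht', if_pos hi]
    · intro i _ hi
      simp only [ht', if_neg hi, measure_univ]
  rw [h1, h2, Measure.map_apply (measurable_cat M)
    (MeasurableSet.pi (Finset.countable_toSet _) fun i _ => ht'm i)]
  have h3 : (fun p : (ℕ → Pt → ℝ) × (ℕ → Pt → ℝ) => cat M p.1 p.2) ⁻¹'
      (Set.pi (Finset.range (M + N) : Set ℕ) t') =
      (Set.pi (Finset.range M : Set ℕ) t') ×ˢ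
        (Set.pi (Finset.range N : Set ℕ) (fun i => t' (M + i))) := by
    ext ⟨e, e'⟩
    simp only [Set.mem_preimage, Set.mem_pi, Finset.mem_coe, Finset.mem_range, Set.mem_prod, cat]
    constructor
    · intro h
      refine ⟨fun i hi => ?_, fun i hi => ?_⟩
      · have := h i (by omega)
        rwa [if_pos hi] at this
      · have := h (M + i) (by omega)
        rwa [if_neg (by omega), Nat.add_sub_cancel_left] at this
    · rintro ⟨h, h'⟩ i hi
      split_ifs with hiM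
      · exact h i hiM
      · have := h' (i - M) (by omega)
        rwa [Nat.add_sub_cancel' (by omega)] at this
  rw [h3, Measure.prod_prod]
  unfold muE
  rw [Measure.infinitePi_pi (fun _ : ℕ => ν) (fun i _ => ht'm i),
    Measure.infinitePi_pi (fun _ : ℕ => ν) (fun i _ => ht'm (M + i)), Finset.prod_range_add]

lemma lintegral_cat (ν : Measure (Pt → ℝ)) [IsProbabilityMeasure ν] (M : ℕ)
    {F : (ℕ → Pt → ℝ) → ℝ≥0∞} (hF : Measurable F) :
    ∫⁻ e, F e ∂(muE ν) = ∫⁻ e, ∫⁻ e', F (cat M e e') ∂(muE ν) ∂(muE ν) := by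
  conv_lhs => rw [← map_cat ν M]
  rw [lintegral_map hF (measurable_cat M), lintegral_prod (fun p => F (cat M p.1 p.2))
    (hF.comp (measurable_cat M)).aemeasurable]

/-! ### the transfer operator -/

/-- the slice weight -/
noncomputable def qq (β : ℝ) (a : Pt → ℝ) (x : Pt) : ℝ≥0∞ :=
  ENNReal.ofReal (Real.exp (β * a x - β ^ 2 / 2))

/-- the random transfer operator over `n` slices -/
noncomputable def ZZ (β : ℝ) : ℕ → (ℕ → Pt → ℝ) → (Pt → ℝ≥0∞) → Pt → ℝ≥0∞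
  | 0, _, φ, z => φ z
  | n + 1, e, φ, z =>
      ∑ i : Fin 4, 4⁻¹ * (qq β (e 0) (z + stp i) * ZZ β n (fun k => e (k + 1)) φ (z + stp i))

lemma ZZ_cat (β : ℝ) (N : ℕ) (φ : Pt → ℝ≥0∞) (e' : ℕ → Pt → ℝ) : ∀ (M : ℕ) (e : ℕ → Pt → ℝ)
    (z : Pt), ZZ β (M + N) (cat M e e') φ z = ZZ β M e (ZZ β N e' φ) z
  | 0, e, z => by
      have h : cat 0 e e' = e' := by
        funext n
        simp [cat]
      rw [h, Nat.zero_add]
      rfl
  | M + 1, e, z => by
      have h : (fun k => cat (M + 1) e e' (k + 1)) = cat M (fun k => e (k + 1)) e' := by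
        funext n
        simp only [cat, Nat.add_lt_add_iff_right, Nat.add_sub_add_right]
      have h0 : cat (M + 1) e e' 0 = e 0 := by simp [cat]
      have h1 : M + 1 + N = (M + N) + 1 := by omega
      rw [h1]
      simp only [ZZ, h, h0]
      refine Finset.sum_congr rfl fun i _ => ?_
      rw [ZZ_cat β N φ e' M (fun k => e (k + 1)) (z + stp i)]

lemma measurable_qq (β : ℝ) (x : Pt) : Measurable (fun a : Pt → ℝ => qq β a x) := by
  unfold qq
  fun_prop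

lemma measurable_ZZ (β : ℝ) (φ : Pt → ℝ≥0∞) : ∀ (n : ℕ) (z : Pt),
    Measurable (fun e : ℕ → Pt → ℝ => ZZ β n e φ z)
  | 0, z => by
      simp only [ZZ]
      exact measurable_const
  | n + 1, z => by
      simp only [ZZ]
      refine Finset.measurable_sum _ fun i _ => ?_
      refine Measurable.const_mul (Measurable.mul ?_ ?_) _
      · exact (measurable_qq β _).comp (measurable_pi_apply 0)
      · exact (measurable_ZZ β φ n (z + stp i)).comp
          (measurable_pi_lambda _ fun k => measurable_pi_apply (k + 1))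

lemma ZZ_mono (β : ℝ) {φ ψ : Pt → ℝ≥0∞} (h : ∀ z, φ z ≤ ψ z) : ∀ (n : ℕ) (e : ℕ → Pt → ℝ) (z : Pt),
    ZZ β n e φ z ≤ ZZ β n e ψ z
  | 0, e, z => h z
  | n + 1, e, z => by
      simp only [ZZ]
      gcongr with i _
      exact ZZ_mono β h n _ _

lemma ZZ_add (β : ℝ) (φ ψ : Pt → ℝ≥0∞) : ∀ (n : ℕ) (e : ℕ → Pt → ℝ) (z : Pt),
    ZZ β n e (fun y => φ y + ψ y) z = ZZ β n e φ z + ZZ β n e ψ z
  | 0, e, z => rfl
  | n + 1, e, z => by
      simp only [ZZ]
      rw [← Finset.sum_add_distrib]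
      refine Finset.sum_congr rfl fun i _ => ?_
      rw [ZZ_add β φ ψ n, mul_add, mul_add]

lemma ZZ_smul (β : ℝ) (c : ℝ≥0∞) (φ : Pt → ℝ≥0∞) : ∀ (n : ℕ) (e : ℕ → Pt → ℝ) (z : Pt),
    ZZ β n e (fun y => c * φ y) z = c * ZZ β n e φ z
  | 0, e, z => rfl
  | n + 1, e, z => by
      simp only [ZZ]
      rw [Finset.mul_sum]
      refine Finset.sum_congr rfl fun i _ => ?_
      rw [ZZ_smul β c φ n]
      ring

lemma ZZ_kernel (β : ℝ) (ψ : Pt → ℝ≥0∞) : ∀ (n : ℕ) (e : ℕ → Pt → ℝ) (z : Pt),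
    ZZ β n e ψ z = ∑' y, ZZ β n e (fun x => if x = y then 1 else 0) z * ψ y
  | 0, e, z => by
      simp only [ZZ]
      rw [tsum_eq_single z]
      · simp
      · intro y hy
        rw [if_neg (Ne.symm hy), zero_mul]
  | n + 1, e, z => by
      simp only [ZZ]
      have : ∀ y : Pt, (∑ i : Fin 4, 4⁻¹ * (qq β (e 0) (z + stp i) *
          ZZ β n (fun k => e (k + 1)) (fun x => if x = y then 1 else 0) (z + stp i))) * ψ y =
          ∑ i : Fin 4, 4⁻¹ * (qq β (e 0) (z + stp i) *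
          (ZZ β n (fun k => e (k + 1)) (fun x => if x = y then 1 else 0) (z + stp i) * ψ y)) := by
        intro y
        rw [Finset.sum_mul]
        refine Finset.sum_congr rfl fun i _ => ?_
        ring
      simp only [this]
      rw [Summable.tsum_finsetSum (fun i _ => ENNReal.summable)]
      refine Finset.sum_congr rfl fun i _ => ?_
      rw [ENNReal.tsum_mul_left, ENNReal.tsum_mul_left, ← ZZ_kernel β ψ n]

/-- the mass distribution after `n` slices -/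
noncomputable def fw (β : ℝ) (n : ℕ) (e : ℕ → Pt → ℝ) (m : Pt → ℝ≥0∞) (y : Pt) : ℝ≥0∞ :=
  ∑' z, m z * ZZ β n e (fun x => if x = y then 1 else 0) z

lemma pair_ZZ (β : ℝ) (n : ℕ) (e : ℕ → Pt → ℝ) (m ψ : Pt → ℝ≥0∞) :
    ∑' z, m z * ZZ β n e ψ z = ∑' y, fw β n e m y * ψ y := by
  have h1 : ∀ z, m z * ZZ β n e ψ z =
      ∑' y, m z * ZZ β n e (fun x => if x = y then 1 else 0) z * ψ y := by
    intro z
    rw [ZZ_kernel β ψ n e z, ← ENNReal.tsum_mul_left]
    refine tsum_congr fun y => ?_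
    rw [mul_assoc]
  simp only [h1]
  rw [ENNReal.tsum_comm]
  refine tsum_congr fun y => ?_
  rw [ENNReal.tsum_mul_right]
  rfl

lemma measurable_pair (β : ℝ) (n : ℕ) (m φ : Pt → ℝ≥0∞) :
    Measurable (fun e : ℕ → Pt → ℝ => ∑' z, m z * ZZ β n e φ z) := by
  refine Measurable.tsum fun z => ?_
  exact (measurable_ZZ β φ n z).const_mul _

/-! ### Cauchy-Schwarz -/

lemma lintegral_sqrt_mul_le {X : Type*} [MeasurableSpace X] (μ : Measure X) {f h : X → ℝ≥0∞}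
    (hf : Measurable f) (hh : Measurable h) :
    ∫⁻ x, f x ^ (1 / 2 : ℝ) * h x ^ (1 / 2 : ℝ) ∂μ ≤
      (∫⁻ x, f x ∂μ) ^ (1 / 2 : ℝ) * (∫⁻ x, h x ∂μ) ^ (1 / 2 : ℝ) := by
  have h2 : Real.HolderConjugate 2 2 := Real.HolderConjugate.two_two
  have := ENNReal.lintegral_mul_le_Lp_mul_Lq μ h2
    (hf.pow_const (1 / 2 : ℝ)).aemeasurable (hh.pow_const (1 / 2 : ℝ)).aemeasurable
  simp only [Pi.mul_apply, ← ENNReal.rpow_mul] at this
  norm_num at this ⊢
  exact this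

variable {β : ℝ} {ν : Measure (Pt → ℝ)} [IsProbabilityMeasure ν]

/-- the deterministic tilted kernel -/
noncomputable def KK (β : ℝ) (ν : Measure (Pt → ℝ)) (ℓ : ℕ) (g : (ℕ → Pt → ℝ) → ℝ≥0∞)
    (φ : Pt → ℝ≥0∞) (z : Pt) : ℝ≥0∞ := ∫⁻ e, g e * ZZ β ℓ e φ z ∂(muE ν)

omit [IsProbabilityMeasure ν] in
lemma block (ℓ : ℕ) {g : (ℕ → Pt → ℝ) → ℝ≥0∞} (hg : Measurable g) (hg0 : ∀ e, g e ≠ 0)
    (hgt : ∀ e, g e ≠ ⊤) (m φ : Pt → ℝ≥0∞) :
    ∫⁻ e, (∑' z, m z * ZZ β ℓ e φ z) ^ (1 / 2 : ℝ) ∂(muE ν) ≤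
      (∫⁻ e, (g e)⁻¹ ∂(muE ν)) ^ (1 / 2 : ℝ) * (∑' z, m z * KK β ν ℓ g φ z) ^ (1 / 2 : ℝ) := by
  have h1 : ∀ e : ℕ → Pt → ℝ, (∑' z, m z * ZZ β ℓ e φ z) ^ (1 / 2 : ℝ) =
      ((g e)⁻¹) ^ (1 / 2 : ℝ) * (g e * ∑' z, m z * ZZ β ℓ e φ z) ^ (1 / 2 : ℝ) := by
    intro e
    rw [← ENNReal.mul_rpow_of_nonneg _ _ (by norm_num), ← mul_assoc,
      ENNReal.inv_mul_cancel (hg0 e) (hgt e), one_mul]
  rw [lintegral_congr h1]
  refine (lintegral_sqrt_mul_le (muE ν) hg.inv (hg.mul (measurable_pair β ℓ m φ))).trans ?_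
  apply le_of_eq
  congr 2
  have h2 : ∀ e : ℕ → Pt → ℝ, g e * ∑' z, m z * ZZ β ℓ e φ z =
      ∑' z, m z * (g e * ZZ β ℓ e φ z) := by
    intro e
    rw [← ENNReal.tsum_mul_left]
    refine tsum_congr fun z => ?_
    ring
  refine (lintegral_congr h2).trans ?_
  rw [lintegral_tsum]
  · refine tsum_congr fun z => ?_
    exact lintegral_const_mul (m z) (f := fun e => g e * ZZ β ℓ e φ z)
      (hg.mul (measurable_ZZ β φ ℓ z))
  · intro z
    exact ((hg.mul (measurable_ZZ β φ ℓ z)).const_mul _).aemeasurable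

lemma blocks (ℓ : ℕ) {g : (ℕ → Pt → ℝ) → ℝ≥0∞} (hg : Measurable g) (hg0 : ∀ e, g e ≠ 0)
    (hgt : ∀ e, g e ≠ ⊤) (m : Pt → ℝ≥0∞) : ∀ (i : ℕ) (φ : Pt → ℝ≥0∞),
    ∫⁻ e, (∑' z, m z * ZZ β (i * ℓ) e φ z) ^ (1 / 2 : ℝ) ∂(muE ν) ≤
      ((∫⁻ e, (g e)⁻¹ ∂(muE ν)) ^ (1 / 2 : ℝ)) ^ i *
        (∑' z, m z * (KK β ν ℓ g)^[i] φ z) ^ (1 / 2 : ℝ)
  | 0, φ => by
      simp only [Nat.zero_mul, ZZ, pow_zero, one_mul, Function.iterate_zero, id]
      rw [lintegral_const, measure_univ, mul_one]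
  | i + 1, φ => by
      rw [lintegral_cat ν (i * ℓ)
        ((measurable_pair β ((i + 1) * ℓ) m φ).pow_const (1 / 2 : ℝ))]
      have h1 : ∀ e e' : ℕ → Pt → ℝ, (∑' z, m z * ZZ β ((i + 1) * ℓ) (cat (i * ℓ) e e') φ z) =
          ∑' y, fw β (i * ℓ) e m y * ZZ β ℓ e' φ y := by
        intro e e'
        rw [Nat.succ_mul, ← pair_ZZ]
        refine tsum_congr fun z => ?_
        rw [ZZ_cat]
      simp only [h1]
      calc ∫⁻ e, ∫⁻ e', (∑' y, fw β (i * ℓ) e m y * ZZ β ℓ e' φ y) ^ (1 / 2 : ℝ) ∂(muE ν) ∂(muE ν)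
          ≤ ∫⁻ e, (∫⁻ e, (g e)⁻¹ ∂(muE ν)) ^ (1 / 2 : ℝ) *
            (∑' z, m z * ZZ β (i * ℓ) e (KK β ν ℓ g φ) z) ^ (1 / 2 : ℝ) ∂(muE ν) := by
            refine lintegral_mono fun e => ?_
            refine (block ℓ hg hg0 hgt (fw β (i * ℓ) e m) φ).trans ?_
            rw [← pair_ZZ]
        _ = (∫⁻ e, (g e)⁻¹ ∂(muE ν)) ^ (1 / 2 : ℝ) *
            ∫⁻ e, (∑' z, m z * ZZ β (i * ℓ) e (KK β ν ℓ g φ) z) ^ (1 / 2 : ℝ) ∂(muE ν) := by
            rw [lintegral_const_mul _ ((measurable_pair β _ m _).pow_const _)]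
        _ ≤ (∫⁻ e, (g e)⁻¹ ∂(muE ν)) ^ (1 / 2 : ℝ) *
            (((∫⁻ e, (g e)⁻¹ ∂(muE ν)) ^ (1 / 2 : ℝ)) ^ i *
            (∑' z, m z * (KK β ν ℓ g)^[i] (KK β ν ℓ g φ) z) ^ (1 / 2 : ℝ)) := by
            gcongr
            exact blocks ℓ hg hg0 hgt m i (KK β ν ℓ g φ)
        _ = _ := by
            rw [← mul_assoc, ← pow_succ', Function.iterate_succ_apply]

/-! ### box decomposition -/

lemma tsum_sqrt_le {ι : Type*} (x : ι → ℝ≥0∞) :
    (∑' b, x b) ^ (1 / 2 : ℝ) ≤ ∑' b, x b ^ (1 / 2 : ℝ) := by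
  set y : ι → ℝ≥0∞ := fun b => x b ^ (1 / 2 : ℝ) with hy
  have hx : ∀ b, x b = y b * y b := by
    intro b
    simp only [hy]
    rw [← ENNReal.rpow_add_of_nonneg _ _ (by norm_num) (by norm_num)]
    norm_num
  have h1 : (∑' b, x b) ≤ (∑' b, y b) * ∑' b, y b := by
    rw [← ENNReal.tsum_mul_right]
    refine ENNReal.tsum_le_tsum fun b => ?_
    rw [hx b]
    gcongr
    exact ENNReal.le_tsum b
  calc (∑' b, x b) ^ (1 / 2 : ℝ) ≤ ((∑' b, y b) * ∑' b, y b) ^ (1 / 2 : ℝ) := by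
        gcongr
    _ = ∑' b, y b := by
        rw [ENNReal.mul_rpow_of_nonneg _ _ (by norm_num),
          ← ENNReal.rpow_add_of_nonneg _ _ (by norm_num) (by norm_num)]
        norm_num

/-- the index of the box of `z` -/
def bx (σ : ℕ) (z : Pt) : Pt := (z.1 / (σ : ℤ), z.2 / (σ : ℤ))

/-- indicator of a box -/
noncomputable def ind (σ : ℕ) (b : Pt) (z : Pt) : ℝ≥0∞ := if bx σ z = b then 1 else 0

lemma tsum_ind (σ : ℕ) (z : Pt) : ∑' b, ind σ b z = 1 := by
  unfold ind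
  rw [tsum_eq_single (bx σ z)]
  · simp
  · intro b hb
    rw [if_neg (Ne.symm hb)]

lemma coarse_induct (σ M : ℕ)
    (hstep : ∀ (Q : Pt) (m : Pt → ℝ≥0∞), (∀ z, bx σ z ≠ Q → m z = 0) →
      ∑' b, ∫⁻ e, (∑' z, m z * ZZ β M e (ind σ b) z) ^ (1 / 2 : ℝ) ∂(muE ν) ≤
        2⁻¹ * (∑' z, m z) ^ (1 / 2 : ℝ)) :
    ∀ (k : ℕ) (Q : Pt) (m : Pt → ℝ≥0∞), (∀ z, bx σ z ≠ Q → m z = 0) →
      ∫⁻ e, (∑' z, m z * ZZ β (k * M) e (fun _ => 1) z) ^ (1 / 2 : ℝ) ∂(muE ν) ≤
        2⁻¹ ^ k * (∑' z, m z) ^ (1 / 2 : ℝ)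
  | 0, Q, m, hm => by
      simp only [Nat.zero_mul, ZZ, pow_zero, one_mul, mul_one]
      rw [lintegral_const, measure_univ, mul_one]
  | k + 1, Q, m, hm => by
      have hk : (k + 1) * M = M + k * M := by ring
      rw [hk, lintegral_cat ν M ((measurable_pair β (M + k * M) m _).pow_const (1 / 2 : ℝ))]
      have h1 : ∀ e e' : ℕ → Pt → ℝ,
          (∑' z, m z * ZZ β (M + k * M) (cat M e e') (fun _ => 1) z) =
          ∑' b, ∑' y, (fw β M e m y * ind σ b y) * ZZ β (k * M) e' (fun _ => 1) y := by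
        intro e e'
        have : (∑' z, m z * ZZ β (M + k * M) (cat M e e') (fun _ => 1) z) =
            ∑' y, fw β M e m y * ZZ β (k * M) e' (fun _ => 1) y := by
          rw [← pair_ZZ]
          refine tsum_congr fun z => ?_
          rw [ZZ_cat]
        rw [this, ENNReal.tsum_comm]
        refine tsum_congr fun y => ?_
        rw [ENNReal.tsum_mul_right, ENNReal.tsum_mul_left, tsum_ind, mul_one]
      simp only [h1]
      calc ∫⁻ e, ∫⁻ e', (∑' b, ∑' y, (fw β M e m y * ind σ b y) *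
              ZZ β (k * M) e' (fun _ => 1) y) ^ (1 / 2 : ℝ) ∂(muE ν) ∂(muE ν)
          ≤ ∫⁻ e, ∫⁻ e', ∑' b, (∑' y, (fw β M e m y * ind σ b y) *
              ZZ β (k * M) e' (fun _ => 1) y) ^ (1 / 2 : ℝ) ∂(muE ν) ∂(muE ν) := by
            refine lintegral_mono fun e => lintegral_mono fun e' => ?_
            exact tsum_sqrt_le _
        _ = ∫⁻ e, ∑' b, ∫⁻ e', (∑' y, (fw β M e m y * ind σ b y) *
              ZZ β (k * M) e' (fun _ => 1) y) ^ (1 / 2 : ℝ) ∂(muE ν) ∂(muE ν) := by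
            refine lintegral_congr fun e => ?_
            rw [lintegral_tsum]
            intro b
            exact ((measurable_pair β _ _ _).pow_const _).aemeasurable
        _ ≤ ∫⁻ e, ∑' b, 2⁻¹ ^ k * (∑' y, fw β M e m y * ind σ b y) ^ (1 / 2 : ℝ) ∂(muE ν) := by
            refine lintegral_mono fun e => ENNReal.tsum_le_tsum fun b => ?_
            refine coarse_induct σ M hstep k b (fun y => fw β M e m y * ind σ b y) ?_
            intro z hz
            simp only [ind, if_neg hz, mul_zero]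
        _ = ∑' b, 2⁻¹ ^ k * ∫⁻ e, (∑' z, m z * ZZ β M e (ind σ b) z) ^ (1 / 2 : ℝ) ∂(muE ν) := by
            have h2 : ∀ (e : ℕ → Pt → ℝ) (b : Pt), (∑' y, fw β M e m y * ind σ b y) =
                ∑' z, m z * ZZ β M e (ind σ b) z := fun e b => (pair_ZZ β M e m (ind σ b)).symm
            simp only [h2]
            rw [lintegral_tsum]
            · refine tsum_congr fun b => ?_
              rw [lintegral_const_mul _ ((measurable_pair β _ _ _).pow_const _)]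
            · intro b
              exact (((measurable_pair β _ _ _).pow_const _).const_mul _).aemeasurable
        _ = 2⁻¹ ^ k * ∑' b, ∫⁻ e, (∑' z, m z * ZZ β M e (ind σ b) z) ^ (1 / 2 : ℝ) ∂(muE ν) := by
            rw [ENNReal.tsum_mul_left]
        _ ≤ 2⁻¹ ^ k * (2⁻¹ * (∑' z, m z) ^ (1 / 2 : ℝ)) := by
            gcongr
            exact hstep Q m hm
        _ = _ := by
            rw [← mul_assoc, ← pow_succ]

/-! ### properties of the kernel -/

omit [IsProbabilityMeasure ν] in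
lemma KK_mono (ℓ : ℕ) (g : (ℕ → Pt → ℝ) → ℝ≥0∞) {φ ψ : Pt → ℝ≥0∞} (h : ∀ z, φ z ≤ ψ z) (z : Pt) :
    KK β ν ℓ g φ z ≤ KK β ν ℓ g ψ z := by
  unfold KK
  refine lintegral_mono fun e => ?_
  exact mul_le_mul' le_rfl (ZZ_mono β h ℓ e z)

lemma measurable_gZ (ℓ : ℕ) {g : (ℕ → Pt → ℝ) → ℝ≥0∞} (hg : Measurable g) (φ : Pt → ℝ≥0∞)
    (z : Pt) : Measurable (fun e => g e * ZZ β ℓ e φ z) := hg.mul (measurable_ZZ β φ ℓ z)

lemma measurable_qq0 (x : Pt) : Measurable (fun e : ℕ → Pt → ℝ => qq β (e 0) x) :=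
  (measurable_qq β x).comp (measurable_pi_apply 0)

omit [IsProbabilityMeasure ν] in
lemma KK_add (ℓ : ℕ) {g : (ℕ → Pt → ℝ) → ℝ≥0∞} (hg : Measurable g) (φ ψ : Pt → ℝ≥0∞) (z : Pt) :
    KK β ν ℓ g (fun y => φ y + ψ y) z = KK β ν ℓ g φ z + KK β ν ℓ g ψ z := by
  unfold KK
  rw [← lintegral_add_left (measurable_gZ ℓ hg φ z)]
  refine lintegral_congr fun e => ?_
  rw [ZZ_add, mul_add]

omit [IsProbabilityMeasure ν] in
lemma KK_smul (ℓ : ℕ) {g : (ℕ → Pt → ℝ) → ℝ≥0∞} (hg : Measurable g) (c : ℝ≥0∞) (φ : Pt → ℝ≥0∞)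
    (z : Pt) : KK β ν ℓ g (fun y => c * φ y) z = c * KK β ν ℓ g φ z := by
  unfold KK
  rw [← lintegral_const_mul _ (measurable_gZ ℓ hg φ z)]
  refine lintegral_congr fun e => ?_
  rw [ZZ_smul]
  show g e * (c * ZZ β ℓ e φ z) = c * (g e * ZZ β ℓ e φ z)
  ring

omit [IsProbabilityMeasure ν] in
lemma KK_iter_mono (ℓ : ℕ) (g : (ℕ → Pt → ℝ) → ℝ≥0∞) {φ ψ : Pt → ℝ≥0∞} (h : ∀ z, φ z ≤ ψ z) :
    ∀ (i : ℕ) (z : Pt), (KK β ν ℓ g)^[i] φ z ≤ (KK β ν ℓ g)^[i] ψ z
  | 0, z => h z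
  | i + 1, z => by
      rw [Function.iterate_succ_apply', Function.iterate_succ_apply']
      exact KK_mono ℓ g (KK_iter_mono ℓ g h i) z

omit [IsProbabilityMeasure ν] in
lemma KK_iter_le (ℓ : ℕ) {g : (ℕ → Pt → ℝ) → ℝ≥0∞} (hg : Measurable g) {ψ : Pt → ℝ≥0∞} {c d : ℝ≥0∞}
    (h : ∀ z, KK β ν ℓ g ψ z ≤ c * ψ z) :
    ∀ (i : ℕ) (z : Pt), (KK β ν ℓ g)^[i] (fun y => d * ψ y) z ≤ d * (c ^ i * ψ z)
  | 0, z => by simp
  | i + 1, z => by
      rw [Function.iterate_succ_apply']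
      calc KK β ν ℓ g ((KK β ν ℓ g)^[i] (fun y => d * ψ y)) z
          ≤ KK β ν ℓ g (fun y => (d * c ^ i) * ψ y) z := by
            refine KK_mono ℓ g (fun y => ?_) z
            rw [mul_assoc]
            exact KK_iter_le ℓ hg h i y
        _ = (d * c ^ i) * KK β ν ℓ g ψ z := KK_smul ℓ hg _ _ _
        _ ≤ (d * c ^ i) * (c * ψ z) := by gcongr; exact h z
        _ = _ := by ring

/-! ### moments of the walk -/

/-- one step of the walk -/
noncomputable def PW (φ : Pt → ℝ≥0∞) (z : Pt) : ℝ≥0∞ := ∑ i : Fin 4, 4⁻¹ * φ (z + stp i)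

lemma PW_iter_le {ψ : Pt → ℝ≥0∞} {c : ℝ≥0∞} (h : ∀ z, PW ψ z ≤ c * ψ z) :
    ∀ (i : ℕ) (z : Pt), PW^[i] ψ z ≤ c ^ i * ψ z
  | 0, z => by simp
  | i + 1, z => by
      rw [Function.iterate_succ_apply']
      calc PW (PW^[i] ψ) z ≤ PW (fun y => c ^ i * ψ y) z := by
            unfold PW
            gcongr with j _
            exact PW_iter_le h i _
        _ = c ^ i * PW ψ z := by
            unfold PW
            rw [Finset.mul_sum]
            refine Finset.sum_congr rfl fun j _ => ?_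
            ring
        _ ≤ c ^ i * (c * ψ z) := by gcongr; exact h z
        _ = _ := by ring

lemma lintegral_ZZ (hq : ∀ x, ∫⁻ a, qq β a x ∂ν = 1) (φ : Pt → ℝ≥0∞) : ∀ (n : ℕ) (z : Pt),
    ∫⁻ e, ZZ β n e φ z ∂(muE ν) = PW^[n] φ z
  | 0, z => by
      simp only [ZZ, Function.iterate_zero, id]
      rw [lintegral_const, measure_univ, mul_one]
  | n + 1, z => by
      rw [Function.iterate_succ_apply', lintegral_cat ν 1 (measurable_ZZ β φ (n + 1) z)]
      have h1 : ∀ e e' : ℕ → Pt → ℝ, ZZ β (n + 1) (cat 1 e e') φ z =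
          ∑ i : Fin 4, 4⁻¹ * qq β (e 0) (z + stp i) * ZZ β n e' φ (z + stp i) := by
        intro e e'
        rw [Nat.add_comm n 1, ZZ_cat]
        simp only [ZZ]
        refine Finset.sum_congr rfl fun i _ => ?_
        ring
      simp only [h1]
      have h2 : ∀ e : ℕ → Pt → ℝ, ∫⁻ e', ∑ i : Fin 4, 4⁻¹ * qq β (e 0) (z + stp i) *
          ZZ β n e' φ (z + stp i) ∂(muE ν) =
          ∑ i : Fin 4, 4⁻¹ * PW^[n] φ (z + stp i) * qq β (e 0) (z + stp i) := by
        intro e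
        rw [lintegral_finsetSum]
        · refine Finset.sum_congr rfl fun i _ => ?_
          rw [lintegral_const_mul _ (measurable_ZZ β φ n _), lintegral_ZZ hq φ n]
          ring
        · intro i _
          exact (measurable_ZZ β φ n _).const_mul _
      simp only [h2]
      rw [lintegral_finsetSum]
      · show _ = ∑ i : Fin 4, 4⁻¹ * PW^[n] φ (z + stp i)
        refine Finset.sum_congr rfl fun i _ => ?_
        rw [lintegral_const_mul _ (measurable_qq0 _)]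
        have h3 : ∫⁻ e, qq β (e 0) (z + stp i) ∂(muE ν) = 1 := by
          rw [← hq (z + stp i)]
          have := (measurePreserving_eval_infinitePi (fun _ : ℕ => ν) 0)
          exact this.lintegral_comp (measurable_qq β _)
        rw [h3, mul_one]
      · intro i _
        exact (measurable_qq0 _).const_mul _

lemma ZZ_cs (ψ : Pt → ℝ≥0∞) (n : ℕ) (e : ℕ → Pt → ℝ) (z : Pt) :
    ZZ β n e ψ z ≤ (ZZ β n e (fun _ => 1) z) ^ (1 / 2 : ℝ) *
      (ZZ β n e (fun y => ψ y * ψ y) z) ^ (1 / 2 : ℝ) := by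
  rw [ZZ_kernel β ψ, ZZ_kernel β (fun _ => 1), ZZ_kernel β (fun y => ψ y * ψ y)]
  set k : Pt → ℝ≥0∞ := fun y => ZZ β n e (fun x => if x = y then 1 else 0) z with hk
  have h := lintegral_sqrt_mul_le (X := Pt) (Measure.count) (f := fun y => k y * 1)
    (h := fun y => k y * (ψ y * ψ y)) (Measurable.of_discrete) (Measurable.of_discrete)
  rw [lintegral_count, lintegral_count, lintegral_count] at h
  refine le_trans (le_of_eq ?_) h
  refine tsum_congr fun y => ?_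
  rw [mul_one, ENNReal.mul_rpow_of_nonneg _ _ (by norm_num),
    ENNReal.mul_rpow_of_nonneg _ _ (by norm_num), ← mul_assoc,
    ← ENNReal.rpow_add_of_nonneg _ _ (by norm_num) (by norm_num),
    ← ENNReal.rpow_add_of_nonneg _ _ (by norm_num) (by norm_num)]
  norm_num
  rfl

lemma KK_cs (hq : ∀ x, ∫⁻ a, qq β a x ∂ν = 1) (ℓ : ℕ) {g : (ℕ → Pt → ℝ) → ℝ≥0∞}
    (hg : Measurable g) (ψ : Pt → ℝ≥0∞) (z : Pt) :
    KK β ν ℓ g ψ z ≤ (∫⁻ e, (g e * g e) * ZZ β ℓ e (fun _ => 1) z ∂(muE ν)) ^ (1 / 2 : ℝ) *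
      (PW^[ℓ] (fun y => ψ y * ψ y) z) ^ (1 / 2 : ℝ) := by
  have h1 : ∀ e : ℕ → Pt → ℝ, g e * ZZ β ℓ e ψ z ≤
      ((g e * g e) * ZZ β ℓ e (fun _ => 1) z) ^ (1 / 2 : ℝ) *
      (ZZ β ℓ e (fun y => ψ y * ψ y) z) ^ (1 / 2 : ℝ) := by
    intro e
    rw [ENNReal.mul_rpow_of_nonneg _ _ (by norm_num), ENNReal.mul_rpow_of_nonneg _ _ (by norm_num),
      ← ENNReal.rpow_add_of_nonneg _ _ (by norm_num) (by norm_num)]
    norm_num
    rw [mul_assoc]
    gcongr
    have := ZZ_cs (β := β) ψ ℓ e z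
    norm_num at this
    exact this
  unfold KK
  refine (lintegral_mono h1).trans ?_
  refine (lintegral_sqrt_mul_le (muE ν) ((hg.mul hg).mul (measurable_ZZ β _ ℓ z))
    (measurable_ZZ β _ ℓ z)).trans ?_
  rw [lintegral_ZZ hq]
  rfl

/-! ### relation with `EP` -/

/-- `EP` with values in `ℝ≥0∞` -/
noncomputable def EPn : ℕ → (List Pt → ℝ≥0∞) → Pt → ℝ≥0∞
  | 0, F, _ => F []
  | k + 1, F, x => ∑ i : Fin 4, 4⁻¹ * EPn k (fun l => F ((x + stp i) :: l)) (x + stp i)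

lemma EP_nonneg' : ∀ (k : ℕ) (F : List Pt → ℝ) (x : Pt), (∀ l, 0 ≤ F l) → 0 ≤ EP k F x
  | 0, F, x, h => h []
  | k + 1, F, x, h => by
      simp only [EP]
      have : ∀ i, 0 ≤ EP k (fun l => F ((x + stp i) :: l)) (x + stp i) := fun i =>
        EP_nonneg' k _ _ fun l => h _
      have h2 := Finset.sum_nonneg (s := Finset.univ) fun i _ => this i
      positivity

lemma ofReal_EP : ∀ (k : ℕ) (F : List Pt → ℝ) (x : Pt), (∀ l, 0 ≤ F l) →
    ENNReal.ofReal (EP k F x) = EPn k (fun l => ENNReal.ofReal (F l)) x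
  | 0, F, x, h => rfl
  | k + 1, F, x, h => by
      simp only [EP, EPn]
      rw [ENNReal.ofReal_mul (by norm_num), ENNReal.ofReal_sum_of_nonneg
        (fun i _ => EP_nonneg' k _ _ fun l => h _), Finset.mul_sum]
      refine Finset.sum_congr rfl fun i _ => ?_
      rw [ofReal_EP k _ _ fun l => h _]
      congr 1
      rw [one_div, ENNReal.ofReal_inv_of_pos (by norm_num)]
      norm_num

lemma EPn_lintegral {X : Type*} [MeasurableSpace X] (μ : Measure X) : ∀ (k : ℕ)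
    (F : X → List Pt → ℝ≥0∞) (x : Pt), (∀ l, Measurable fun e => F e l) →
    EPn k (fun l => ∫⁻ e, F e l ∂μ) x = ∫⁻ e, EPn k (F e) x ∂μ ∧
      Measurable (fun e => EPn k (F e) x)
  | 0, F, x, h => ⟨rfl, h []⟩
  | k + 1, F, x, h => by
      simp only [EPn]
      have hm : ∀ i : Fin 4, Measurable (fun e => EPn k (fun l => F e ((x + stp i) :: l))
          (x + stp i)) := fun i => (EPn_lintegral μ k (fun e l => F e ((x + stp i) :: l))
            (x + stp i) fun l => h _).2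
      refine ⟨?_, Finset.measurable_sum _ fun i _ => (hm i).const_mul _⟩
      rw [lintegral_finsetSum]
      · refine Finset.sum_congr rfl fun i _ => ?_
        rw [lintegral_const_mul _ (hm i)]
        rw [(EPn_lintegral μ k (fun e l => F e ((x + stp i) :: l)) (x + stp i) fun l => h _).1]
      · intro i _
        exact (hm i).const_mul _

lemma EPn_wt : ∀ (k : ℕ) (c : ℝ≥0∞) (e : ℕ → Pt → ℝ) (x : Pt),
    EPn k (fun l => c * ENNReal.ofReal (wt β e l)) x = c * ZZ β k e (fun _ => 1) x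
  | 0, c, e, x => by simp [EPn, ZZ, wt]
  | k + 1, c, e, x => by
      simp only [EPn, ZZ, wt]
      rw [Finset.mul_sum]
      refine Finset.sum_congr rfl fun i _ => ?_
      have h1 : ∀ l : List Pt, c * ENNReal.ofReal (Real.exp (β * e 0 (x + stp i) - β ^ 2 / 2) *
          wt β (fun n => e (n + 1)) l) = (c * qq β (e 0) (x + stp i)) *
          ENNReal.ofReal (wt β (fun n => e (n + 1)) l) := by
        intro l
        rw [ENNReal.ofReal_mul (Real.exp_pos _).le, mul_assoc]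
        rfl
      simp only [h1]
      rw [EPn_wt k]
      ring

lemma wt_pos' : ∀ (l : List Pt) (e : ℕ → Pt → ℝ), 0 < wt β e l
  | [], e => by simp [wt]
  | x :: l, e => by
      simp only [wt]
      exact mul_pos (Real.exp_pos _) (wt_pos' l _)

lemma measurable_wt' : ∀ (l : List Pt), Measurable (fun e : ℕ → Pt → ℝ => wt β e l)
  | [] => by
      simp only [wt]
      exact measurable_const
  | x :: l => by
      simp only [wt]
      refine Measurable.mul ?_ ?_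
      · have : Measurable (fun e : ℕ → Pt → ℝ => e 0 x) :=
          (measurable_pi_apply x).comp (measurable_pi_apply 0)
        fun_prop
      · exact (measurable_wt' l).comp (measurable_pi_lambda _ fun k => measurable_pi_apply (k + 1))

lemma lintegral_wt (hq : ∀ x, ∫⁻ a, qq β a x ∂ν = 1) : ∀ (l : List Pt),
    ∫⁻ e, ENNReal.ofReal (wt β e l) ∂(muE ν) = 1
  | [] => by simp [wt]
  | x :: l => by
      rw [lintegral_cat ν 1 (measurable_wt' (x :: l)).ennreal_ofReal]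
      have h1 : ∀ e e' : ℕ → Pt → ℝ, ENNReal.ofReal (wt β (cat 1 e e') (x :: l)) =
          qq β (e 0) x * ENNReal.ofReal (wt β e' l) := by
        intro e e'
        have h : (fun n => cat 1 e e' (n + 1)) = e' := by
          funext n
          simp [cat]
        have h0 : cat 1 e e' 0 = e 0 := by simp [cat]
        simp only [wt, h, h0]
        rw [ENNReal.ofReal_mul (Real.exp_pos _).le]
        rfl
      simp only [h1]
      have h2 : ∀ e : ℕ → Pt → ℝ, ∫⁻ e', qq β (e 0) x * ENNReal.ofReal (wt β e' l) ∂(muE ν) =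
          qq β (e 0) x := by
        intro e
        rw [lintegral_const_mul _ (measurable_wt' l).ennreal_ofReal, lintegral_wt hq l, mul_one]
      simp only [h2]
      rw [← hq x]
      have := (measurePreserving_eval_infinitePi (fun _ : ℕ => ν) 0)
      exact this.lintegral_comp (measurable_qq β _)

lemma EP_int (hq : ∀ x, ∫⁻ a, qq β a x ∂ν = 1) {h : (ℕ → Pt → ℝ) → ℝ} (hh : Measurable h) {C : ℝ}
    (h0 : ∀ e, 0 ≤ h e) (hC : ∀ e, h e ≤ C) (ℓ : ℕ) (z : Pt) :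
    ∫⁻ e, ENNReal.ofReal (h e) * ZZ β ℓ e (fun _ => 1) z ∂(muE ν) =
      ENNReal.ofReal (EP ℓ (fun l => ∫ e, wt β e l * h e ∂(muE ν)) z) := by
  have h1 : ∀ l : List Pt, ENNReal.ofReal (∫ e, wt β e l * h e ∂(muE ν)) =
      ∫⁻ e, ENNReal.ofReal (h e) * ENNReal.ofReal (wt β e l) ∂(muE ν) := by
    intro l
    have hm : Measurable (fun e : ℕ → Pt → ℝ => wt β e l * h e) := (measurable_wt' l).mul hh
    have hint : Integrable (fun e => wt β e l * h e) (muE ν) := by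
      rw [← lintegral_ofReal_ne_top_iff_integrable hm.aestronglyMeasurable
        (Eventually.of_forall fun e => mul_nonneg (wt_pos' l e).le (h0 e))]
      have : ∫⁻ e, ENNReal.ofReal (wt β e l * h e) ∂(muE ν) ≤
          ∫⁻ e, ENNReal.ofReal C * ENNReal.ofReal (wt β e l) ∂(muE ν) := by
        refine lintegral_mono fun e => ?_
        rw [← ENNReal.ofReal_mul ((h0 e).trans (hC e))]
        refine ENNReal.ofReal_le_ofReal ?_
        rw [mul_comm]
        exact mul_le_mul_of_nonneg_right (hC e) (wt_pos' l e).le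
      rw [lintegral_const_mul _ (measurable_wt' l).ennreal_ofReal, lintegral_wt hq l, mul_one]
        at this
      exact (this.trans_lt ENNReal.ofReal_lt_top).ne
    rw [ofReal_integral_eq_lintegral_ofReal hint
      (Eventually.of_forall fun e => mul_nonneg (wt_pos' l e).le (h0 e))]
    refine lintegral_congr fun e => ?_
    rw [mul_comm, ENNReal.ofReal_mul (h0 e)]
  rw [ofReal_EP ℓ _ z fun l => integral_nonneg fun e => mul_nonneg (wt_pos' l e).le (h0 e)]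
  simp only [h1]
  rw [(EPn_lintegral (muE ν) ℓ (fun e l => ENNReal.ofReal (h e) * ENNReal.ofReal (wt β e l)) z
    fun l => hh.ennreal_ofReal.mul (measurable_wt' l).ennreal_ofReal).1]
  refine lintegral_congr fun e => ?_
  rw [EPn_wt]

lemma ofReal_EP_wt (k : ℕ) (e : ℕ → Pt → ℝ) (z : Pt) :
    ENNReal.ofReal (EP k (fun l => wt β e l) z) = ZZ β k e (fun _ => 1) z := by
  rw [ofReal_EP k _ z fun l => (wt_pos' l e).le]
  have := EPn_wt (β := β) k 1 e z
  simpa using this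

/-! ### the exponential test functions -/

/-- signed rescaled coordinate relative to the box `Q` -/
noncomputable def lin (σ : ℕ) (Q : Pt) (j : Fin 4) (y : Pt) : ℝ :=
  (((stp j).1 : ℝ) * ((y.1 : ℝ) - σ * Q.1) + ((stp j).2 : ℝ) * ((y.2 : ℝ) - σ * Q.2)) / σ

/-- exponential test function -/
noncomputable def psi (σ : ℕ) (Q : Pt) (j : Fin 4) (y : Pt) : ℝ≥0∞ :=
  ENNReal.ofReal (Real.exp (lin σ Q j y))

lemma walk_exp (σ : ℕ) (j : Fin 4) : (1 / 4 : ℝ) * ∑ i : Fin 4,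
    Real.exp (2 * ((((stp j).1 : ℝ) * ((stp i).1 : ℝ) + ((stp j).2 : ℝ) * ((stp i).2 : ℝ)) / σ)) ≤
      Real.exp (2 / (σ : ℝ) ^ 2) := by
  have h1 : ∑ i : Fin 4, Real.exp (2 * ((((stp j).1 : ℝ) * ((stp i).1 : ℝ) +
      ((stp j).2 : ℝ) * ((stp i).2 : ℝ)) / σ)) =
      Real.exp (2 / σ) + Real.exp (-(2 / σ)) + 2 := by
    fin_cases j <;> simp [Fin.sum_univ_four, stp] <;> ring_nf
  rw [h1]
  have h2 := Real.cosh_le_exp_half_sq (2 / (σ : ℝ))
  rw [Real.cosh_eq] at h2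
  have h3 : (2 / (σ : ℝ)) ^ 2 / 2 = 2 / (σ : ℝ) ^ 2 := by
    rw [div_pow]
    ring
  rw [h3] at h2
  have h4 : 1 ≤ Real.exp (2 / (σ : ℝ) ^ 2) := Real.one_le_exp (by positivity)
  linarith

lemma lin_add (σ : ℕ) (Q : Pt) (j i : Fin 4) (z : Pt) : lin σ Q j (z + stp i) = lin σ Q j z +
    (((stp j).1 : ℝ) * ((stp i).1 : ℝ) + ((stp j).2 : ℝ) * ((stp i).2 : ℝ)) / σ := by
  unfold lin
  rw [← add_div]
  congr 1
  simp only [Prod.fst_add, Prod.snd_add, Int.cast_add]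
  ring

lemma psi_mul_self (σ : ℕ) (Q : Pt) (j : Fin 4) (y : Pt) :
    psi σ Q j y * psi σ Q j y = ENNReal.ofReal (Real.exp (2 * lin σ Q j y)) := by
  unfold psi
  rw [← ENNReal.ofReal_mul (Real.exp_pos _).le, ← Real.exp_add]
  congr 2
  ring

lemma PW_psi (σ : ℕ) (Q : Pt) (j : Fin 4) (z : Pt) :
    PW (fun y => psi σ Q j y * psi σ Q j y) z ≤
      ENNReal.ofReal (Real.exp (2 / (σ : ℝ) ^ 2)) * (psi σ Q j z * psi σ Q j z) := by
  unfold PW
  simp only [psi_mul_self]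
  have h4 : (4⁻¹ : ℝ≥0∞) = ENNReal.ofReal (1 / 4) := by
    rw [one_div, ENNReal.ofReal_inv_of_pos (by norm_num)]
    norm_num
  rw [h4, ← Finset.mul_sum, ← ENNReal.ofReal_sum_of_nonneg (fun i _ => (Real.exp_pos _).le),
    ← ENNReal.ofReal_mul (by norm_num), ← ENNReal.ofReal_mul (Real.exp_pos _).le]
  refine ENNReal.ofReal_le_ofReal ?_
  have h5 : ∀ i : Fin 4, Real.exp (2 * lin σ Q j (z + stp i)) = Real.exp (2 * lin σ Q j z) *
      Real.exp (2 * ((((stp j).1 : ℝ) * ((stp i).1 : ℝ) +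
        ((stp j).2 : ℝ) * ((stp i).2 : ℝ)) / σ)) := by
    intro i
    rw [lin_add, ← Real.exp_add]
    congr 1
    ring
  simp only [h5]
  rw [← Finset.mul_sum]
  have := mul_le_mul_of_nonneg_left (walk_exp σ j) (Real.exp_pos (2 * lin σ Q j z)).le
  linarith

lemma rpow_half_ofReal_exp (x : ℝ) :
    (ENNReal.ofReal (Real.exp x)) ^ (1 / 2 : ℝ) = ENNReal.ofReal (Real.exp (x / 2)) := by
  rw [ENNReal.ofReal_rpow_of_nonneg (Real.exp_pos _).le (by norm_num), ← Real.exp_mul]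
  congr 2
  ring

/-- the tilted kernel almost preserves the exponential test functions -/
lemma KK_psi (hq : ∀ x, ∫⁻ a, qq β a x ∂ν = 1) {g : (ℕ → Pt → ℝ) → ℝ} (hg : Measurable g)
    (hg0 : ∀ e, 0 ≤ g e) (hg1 : ∀ e, g e ≤ 3 / 2) {ℓ m σ : ℕ} (hm : 1 ≤ m) (hℓ : 1 ≤ ℓ)
    (hσ : ℓ * m ≤ σ ^ 2)
    (h10 : ∀ z, EP ℓ (fun l => ∫ e, wt β e l * g e ^ 2 ∂(muE ν)) z ≤ 1 + 10 / m)
    (Q : Pt) (j : Fin 4) (z : Pt) :
    KK β ν ℓ (fun e => ENNReal.ofReal (g e)) (psi σ Q j) z ≤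
      ENNReal.ofReal (Real.exp (6 / m)) * psi σ Q j z := by
  have hm0 : (0 : ℝ) < m := by exact_mod_cast hm
  have hσ0 : (0 : ℝ) < (σ : ℝ) ^ 2 := by
    have : 0 < σ ^ 2 := lt_of_lt_of_le (Nat.mul_pos hℓ hm) hσ
    exact_mod_cast this
  refine (KK_cs hq ℓ hg.ennreal_ofReal (psi σ Q j) z).trans ?_
  have h1 : (∫⁻ e, (ENNReal.ofReal (g e) * ENNReal.ofReal (g e)) *
      ZZ β ℓ e (fun _ => 1) z ∂(muE ν)) ≤ ENNReal.ofReal (Real.exp (10 / m)) := by
    have h2 : ∀ e : ℕ → Pt → ℝ, (ENNReal.ofReal (g e) * ENNReal.ofReal (g e)) *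
        ZZ β ℓ e (fun _ => 1) z = ENNReal.ofReal (g e ^ 2) * ZZ β ℓ e (fun _ => 1) z := by
      intro e
      rw [← ENNReal.ofReal_mul (hg0 e), sq]
    rw [lintegral_congr h2, EP_int hq (hg.pow_const 2) (C := (3 / 2) ^ 2) (fun e => sq_nonneg _)
      (fun e => pow_le_pow_left₀ (hg0 e) (hg1 e) 2)]
    refine ENNReal.ofReal_le_ofReal ((h10 z).trans ?_)
    have := Real.add_one_le_exp (10 / (m : ℝ))
    linarith
  have h2 := PW_iter_le (PW_psi σ Q j) ℓ z
  have h3 : (PW^[ℓ] (fun y => psi σ Q j y * psi σ Q j y) z) ^ (1 / 2 : ℝ) ≤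
      ENNReal.ofReal (Real.exp (1 / m)) * psi σ Q j z := by
    calc (PW^[ℓ] (fun y => psi σ Q j y * psi σ Q j y) z) ^ (1 / 2 : ℝ)
        ≤ (ENNReal.ofReal (Real.exp (2 / (σ : ℝ) ^ 2)) ^ ℓ *
          (psi σ Q j z * psi σ Q j z)) ^ (1 / 2 : ℝ) := by
          gcongr
      _ = (ENNReal.ofReal (Real.exp (2 / (σ : ℝ) ^ 2)) ^ ℓ) ^ (1 / 2 : ℝ) * psi σ Q j z := by
          rw [ENNReal.mul_rpow_of_nonneg _ _ (by norm_num),
            ENNReal.mul_rpow_of_nonneg _ _ (by norm_num),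
            ← ENNReal.rpow_add_of_nonneg _ _ (by norm_num) (by norm_num)]
          norm_num
      _ ≤ ENNReal.ofReal (Real.exp (1 / m)) * psi σ Q j z := by
          gcongr
          rw [← ENNReal.ofReal_pow (Real.exp_pos _).le, ← Real.exp_nat_mul, rpow_half_ofReal_exp]
          refine ENNReal.ofReal_le_ofReal (Real.exp_le_exp.mpr ?_)
          rw [mul_div_assoc', div_div, div_le_div_iff₀ (by positivity) hm0]
          have : (ℓ : ℝ) * m ≤ (σ : ℝ) ^ 2 := by exact_mod_cast hσ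
          nlinarith
  calc _ ≤ (ENNReal.ofReal (Real.exp (10 / m))) ^ (1 / 2 : ℝ) *
        (ENNReal.ofReal (Real.exp (1 / m)) * psi σ Q j z) := by
        gcongr
    _ = _ := by
        rw [rpow_half_ofReal_exp, ← mul_assoc, ← ENNReal.ofReal_mul (Real.exp_pos _).le,
          ← Real.exp_add]
        congr 3
        ring

/-! ### near and far estimates -/

lemma lin_bound {σ : ℕ} (hσ : 0 < σ) (Q : Pt) (j : Fin 4) (y : Pt) :
    |lin σ Q j y - (((stp j).1 : ℝ) * (((bx σ y).1 : ℝ) - Q.1) +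
      ((stp j).2 : ℝ) * (((bx σ y).2 : ℝ) - Q.2))| ≤ 1 := by
  have hσ' : (0 : ℝ) < σ := by exact_mod_cast hσ
  have hσz : (0 : ℤ) < σ := by exact_mod_cast hσ
  have key : ∀ t : ℤ, ((t / (σ : ℤ) : ℤ) : ℝ) ≤ (t : ℝ) / σ ∧
      (t : ℝ) / σ ≤ ((t / (σ : ℤ) : ℤ) : ℝ) + 1 := by
    intro t
    have h1 := Int.ediv_mul_le t hσz.ne'
    have h2 := Int.lt_ediv_add_one_mul_self t hσz
    constructor
    · rw [le_div_iff₀ hσ']
      exact_mod_cast h1
    · rw [div_le_iff₀ hσ']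
      exact_mod_cast h2.le
  have k1 := key y.1
  have k2 := key y.2
  have h3 : ∀ t q : ℝ, (t - σ * q) / σ = t / σ - q := by
    intro t q
    field_simp
  unfold lin bx
  rw [abs_le]
  fin_cases j <;> simp [stp, h3] <;> (try rw [← neg_sub, neg_div, h3]) <;>
    constructor <;> linarith [k1.1, k1.2, k2.1, k2.2]

lemma ind_le {σ : ℕ} (hσ : 0 < σ) (Q b : Pt) (j : Fin 4) (y : Pt) :
    ind σ b y ≤ ENNReal.ofReal (Real.exp (1 - (((stp j).1 : ℝ) * ((b.1 : ℝ) - Q.1) +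
      ((stp j).2 : ℝ) * ((b.2 : ℝ) - Q.2)))) * psi σ Q j y := by
  unfold ind
  split_ifs with h
  · subst h
    unfold psi
    rw [← ENNReal.ofReal_mul (Real.exp_pos _).le, ← Real.exp_add]
    rw [← ENNReal.ofReal_one]
    refine ENNReal.ofReal_le_ofReal (Real.one_le_exp ?_)
    have := (abs_le.mp (lin_bound hσ Q j y)).1
    linarith
  · exact zero_le

lemma psi_le {σ : ℕ} (hσ : 0 < σ) {Q z : Pt} (h : bx σ z = Q) (j : Fin 4) :
    psi σ Q j z ≤ ENNReal.ofReal (Real.exp 1) := by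
  unfold psi
  refine ENNReal.ofReal_le_ofReal (Real.exp_le_exp.mpr ?_)
  have := (abs_le.mp (lin_bound hσ Q j z)).2
  rw [h] at this
  simp only [sub_self, mul_zero, add_zero, sub_zero] at this
  exact this

omit [IsProbabilityMeasure ν] in
lemma far {g : (ℕ → Pt → ℝ) → ℝ≥0∞} (hg : Measurable g) {ℓ m σ : ℕ} (hm : 1 ≤ m) (hσ : 0 < σ)
    (Q : Pt) (hpsi : ∀ j z, KK β ν ℓ g (psi σ Q j) z ≤
      ENNReal.ofReal (Real.exp (6 / m)) * psi σ Q j z) {z : Pt} (hz : bx σ z = Q) (b : Pt)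
    (j : Fin 4) : (KK β ν ℓ g)^[m] (ind σ b) z ≤
      ENNReal.ofReal (Real.exp (8 - (((stp j).1 : ℝ) * ((b.1 : ℝ) - Q.1) +
        ((stp j).2 : ℝ) * ((b.2 : ℝ) - Q.2)))) := by
  have hm0 : (0 : ℝ) < m := by exact_mod_cast hm
  refine (KK_iter_mono ℓ g (ind_le hσ Q b j) m z).trans ?_
  refine (KK_iter_le ℓ hg (hpsi j) m z).trans ?_
  calc _ ≤ ENNReal.ofReal (Real.exp (1 - (((stp j).1 : ℝ) * ((b.1 : ℝ) - Q.1) +
      ((stp j).2 : ℝ) * ((b.2 : ℝ) - Q.2)))) * (ENNReal.ofReal (Real.exp (6 / m)) ^ m *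
        ENNReal.ofReal (Real.exp 1)) := by
        gcongr
        exact psi_le hσ hz j
    _ = _ := by
        rw [← ENNReal.ofReal_pow (Real.exp_pos _).le, ← Real.exp_nat_mul,
          ← ENNReal.ofReal_mul (Real.exp_pos _).le, ← ENNReal.ofReal_mul (Real.exp_pos _).le,
          ← Real.exp_add, ← Real.exp_add]
        congr 2
        rw [mul_div_cancel₀ _ hm0.ne']
        ring

omit [IsProbabilityMeasure ν] in
lemma far' {g : (ℕ → Pt → ℝ) → ℝ≥0∞} (hg : Measurable g) {ℓ m σ : ℕ} (hm : 1 ≤ m) (hσ : 0 < σ)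
    (Q : Pt) (hpsi : ∀ j z, KK β ν ℓ g (psi σ Q j) z ≤
      ENNReal.ofReal (Real.exp (6 / m)) * psi σ Q j z) {z : Pt} (hz : bx σ z = Q) (b : Pt) :
    (KK β ν ℓ g)^[m] (ind σ b) z ≤ ENNReal.ofReal (Real.exp (8 - |(b.1 : ℝ) - Q.1|)) ∧
    (KK β ν ℓ g)^[m] (ind σ b) z ≤ ENNReal.ofReal (Real.exp (8 - |(b.2 : ℝ) - Q.2|)) := by
  have h0 := far hg hm hσ Q hpsi hz b 0
  have h1 := far hg hm hσ Q hpsi hz b 1
  have h2 := far hg hm hσ Q hpsi hz b 2
  have h3 := far hg hm hσ Q hpsi hz b 3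
  simp [stp] at h0 h1 h2 h3
  constructor
  · rcases abs_cases ((b.1 : ℝ) - Q.1) with ⟨h, _⟩ | ⟨h, _⟩ <;> rw [h]
    · exact h0
    · convert h1 using 3
      ring
  · rcases abs_cases ((b.2 : ℝ) - Q.2) with ⟨h, _⟩ | ⟨h, _⟩ <;> rw [h]
    · exact h2
    · convert h3 using 3
      ring

lemma near (hq : ∀ x, ∫⁻ a, qq β a x ∂ν = 1) {g : (ℕ → Pt → ℝ) → ℝ} (hg : Measurable g)
    (hg0 : ∀ e, 0 ≤ g e) (hg1 : ∀ e, g e ≤ 3 / 2) {ℓ m σ : ℕ} (hm : 1 ≤ m) (hσ : 0 < σ)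
    {A0 R0 : ℝ} (hA0 : 1 ≤ A0) (hR0 : 0 ≤ R0) (Q : Pt)
    (h6 : ∀ z, EP ℓ (fun l => ∫ e, wt β e l * g e ∂(muE ν)) z ≤ 1 + 6 / m)
    (hA : ∀ z : Pt, |(z.1 : ℝ) - σ * Q.1| ≤ R0 * σ → |(z.2 : ℝ) - σ * Q.2| ≤ R0 * σ →
      EP ℓ (fun l => ∫ e, wt β e l * g e ∂(muE ν)) z ≤ 1 - A0 / m)
    (hpsi : ∀ j z, KK β ν ℓ (fun e => ENNReal.ofReal (g e)) (psi σ Q j) z ≤
      ENNReal.ofReal (Real.exp (6 / m)) * psi σ Q j z) {z : Pt} (hz : bx σ z = Q) :
    (KK β ν ℓ (fun e => ENNReal.ofReal (g e)))^[m] (fun _ => 1) z ≤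
      ENNReal.ofReal (Real.exp (-A0) + 28 * Real.exp (7 - R0)) := by
  have hm0 : (0 : ℝ) < m := by exact_mod_cast hm
  have hσ' : (0 : ℝ) < σ := by exact_mod_cast hσ
  set K := KK β ν ℓ (fun e => ENNReal.ofReal (g e)) with hK
  set a : ℝ := 1 - A0 / m with ha
  set δ : ℝ := (A0 + 6) / m with hδ
  set E : ℝ := Real.exp (6 / m) with hE
  have hE1 : 1 ≤ E := Real.one_le_exp (by positivity)
  have hδ0 : 0 ≤ δ := by positivity
  have hK1 : ∀ y, K (fun _ => 1) y =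
      ENNReal.ofReal (EP ℓ (fun l => ∫ e, wt β e l * g e ∂(muE ν)) y) := by
    intro y
    rw [← EP_int hq hg hg0 hg1]
    rfl
  have ha0 : 0 ≤ a := by
    refine le_trans ?_ (hA (σ * Q.1, σ * Q.2) ?_ ?_)
    · exact EP_nonneg' _ _ _ fun l => integral_nonneg fun e =>
        mul_nonneg (wt_pos' l e).le (hg0 e)
    · push_cast
      rw [sub_self, abs_zero]
      positivity
    · push_cast
      rw [sub_self, abs_zero]
      positivity
  set Ψ : Pt → ℝ≥0∞ := fun y => ENNReal.ofReal (Real.exp (-R0)) *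
    (psi σ Q 0 y + psi σ Q 1 y + psi σ Q 2 y + psi σ Q 3 y) with hΨ
  have hKΨ : ∀ y, K Ψ y ≤ ENNReal.ofReal E * Ψ y := by
    intro y
    have hgm : Measurable (fun e => ENNReal.ofReal (g e)) := hg.ennreal_ofReal
    simp only [hΨ, hK]
    rw [KK_smul ℓ hgm _ (fun y => psi σ Q 0 y + psi σ Q 1 y + psi σ Q 2 y + psi σ Q 3 y),
      KK_add ℓ hgm (fun y => psi σ Q 0 y + psi σ Q 1 y + psi σ Q 2 y) (psi σ Q 3),
      KK_add ℓ hgm (fun y => psi σ Q 0 y + psi σ Q 1 y) (psi σ Q 2),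
      KK_add ℓ hgm (psi σ Q 0) (psi σ Q 1)]
    calc _ ≤ ENNReal.ofReal (Real.exp (-R0)) * (ENNReal.ofReal E * psi σ Q 0 y +
          ENNReal.ofReal E * psi σ Q 1 y + ENNReal.ofReal E * psi σ Q 2 y +
          ENNReal.ofReal E * psi σ Q 3 y) := by
          gcongr
          · exact hpsi 0 y
          · exact hpsi 1 y
          · exact hpsi 2 y
          · exact hpsi 3 y
      _ = _ := by ring
  have hΨ1 : ∀ y : Pt, ¬ (|(y.1 : ℝ) - σ * Q.1| ≤ R0 * σ ∧ |(y.2 : ℝ) - σ * Q.2| ≤ R0 * σ) →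
      1 ≤ Ψ y := by
    intro y hy
    have hex : ∃ j : Fin 4, R0 ≤ lin σ Q j y := by
      rw [not_and_or, not_le, not_le] at hy
      unfold lin
      rcases hy with hy | hy <;> rcases lt_abs.mp hy with h | h
      · refine ⟨0, ?_⟩
        rw [le_div_iff₀ hσ']
        simp [stp]
        linarith
      · refine ⟨1, ?_⟩
        rw [le_div_iff₀ hσ']
        simp [stp]
        linarith
      · refine ⟨2, ?_⟩
        rw [le_div_iff₀ hσ']
        simp [stp]
        linarith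
      · refine ⟨3, ?_⟩
        rw [le_div_iff₀ hσ']
        simp [stp]
        linarith
    obtain ⟨j, hj⟩ := hex
    have h1 : psi σ Q j y ≤ psi σ Q 0 y + psi σ Q 1 y + psi σ Q 2 y + psi σ Q 3 y := by
      fin_cases j
      · exact (le_self_add.trans le_self_add).trans le_self_add
      · exact (le_add_self.trans le_self_add).trans le_self_add
      · exact (le_add_self.trans le_self_add)
      · exact le_add_self
    calc (1 : ℝ≥0∞) ≤ ENNReal.ofReal (Real.exp (-R0)) * psi σ Q j y := by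
          unfold psi
          rw [← ENNReal.ofReal_mul (Real.exp_pos _).le, ← Real.exp_add, ← ENNReal.ofReal_one]
          exact ENNReal.ofReal_le_ofReal (Real.one_le_exp (by linarith))
      _ ≤ _ := by
          simp only [hΨ]
          gcongr
  have hK1' : ∀ y, K (fun _ => 1) y ≤ ENNReal.ofReal a + ENNReal.ofReal δ * Ψ y := by
    intro y
    rw [hK1]
    by_cases hy : |(y.1 : ℝ) - σ * Q.1| ≤ R0 * σ ∧ |(y.2 : ℝ) - σ * Q.2| ≤ R0 * σ
    · exact (ENNReal.ofReal_le_ofReal (hA y hy.1 hy.2)).trans le_self_add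
    · calc _ ≤ ENNReal.ofReal (a + δ) := by
            refine ENNReal.ofReal_le_ofReal ((h6 y).trans (le_of_eq ?_))
            simp only [ha, hδ]
            ring
        _ = ENNReal.ofReal a + ENNReal.ofReal δ * 1 := by
            rw [ENNReal.ofReal_add ha0 hδ0, mul_one]
        _ ≤ _ := by
            gcongr
            exact hΨ1 y hy
  have hiter : ∀ (i : ℕ) (y : Pt), K^[i] (fun _ => 1) y ≤ ENNReal.ofReal (a ^ i) +
      ENNReal.ofReal (E ^ i * (∑ j ∈ Finset.range i, a ^ j) * δ) * Ψ y := by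
    intro i
    induction i with
    | zero => intro y; simp
    | succ i ih =>
      intro y
      have hS0 : 0 ≤ ∑ j ∈ Finset.range i, a ^ j := Finset.sum_nonneg fun j _ => pow_nonneg ha0 j
      have hgm : Measurable (fun e => ENNReal.ofReal (g e)) := hg.ennreal_ofReal
      rw [Function.iterate_succ_apply']
      calc K (K^[i] (fun _ => 1)) y ≤ K (fun y => ENNReal.ofReal (a ^ i) * 1 +
            ENNReal.ofReal (E ^ i * (∑ j ∈ Finset.range i, a ^ j) * δ) * Ψ y) y := by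
            refine KK_mono ℓ _ (fun y => ?_) y
            rw [mul_one]
            exact ih y
        _ = ENNReal.ofReal (a ^ i) * K (fun _ => 1) y +
            ENNReal.ofReal (E ^ i * (∑ j ∈ Finset.range i, a ^ j) * δ) * K Ψ y := by
            simp only [hK]
            rw [KK_add ℓ hgm (fun _ => ENNReal.ofReal (a ^ i) * 1) (fun y =>
              ENNReal.ofReal (E ^ i * (∑ j ∈ Finset.range i, a ^ j) * δ) * Ψ y),
              KK_smul ℓ hgm _ (fun _ => 1), KK_smul ℓ hgm _ Ψ]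
        _ ≤ ENNReal.ofReal (a ^ i) * (ENNReal.ofReal a + ENNReal.ofReal δ * Ψ y) +
            ENNReal.ofReal (E ^ i * (∑ j ∈ Finset.range i, a ^ j) * δ) *
              (ENNReal.ofReal E * Ψ y) := by
            gcongr
            · exact hK1' y
            · exact hKΨ y
        _ = ENNReal.ofReal (a ^ (i + 1)) + ENNReal.ofReal (a ^ i * δ +
            E ^ i * (∑ j ∈ Finset.range i, a ^ j) * δ * E) * Ψ y := by
            rw [ENNReal.ofReal_add (by positivity) (by positivity),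
              ENNReal.ofReal_mul (p := a ^ i) (by positivity),
              ENNReal.ofReal_mul (p := E ^ i * (∑ j ∈ Finset.range i, a ^ j) * δ) (by positivity),
              pow_succ, ENNReal.ofReal_mul (p := a ^ i) (by positivity)]
            ring
        _ ≤ _ := by
            gcongr
            rw [Finset.sum_range_succ]
            have h1 : 1 ≤ E ^ (i + 1) := one_le_pow₀ hE1
            have h2 : a ^ i * δ ≤ E ^ (i + 1) * (a ^ i * δ) :=
              le_mul_of_one_le_left (by positivity) h1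
            calc a ^ i * δ + E ^ i * (∑ j ∈ Finset.range i, a ^ j) * δ * E
                ≤ E ^ (i + 1) * (a ^ i * δ) + E ^ i * (∑ j ∈ Finset.range i, a ^ j) * δ * E := by
                  linarith
              _ = _ := by ring
  refine (hiter m z).trans ?_
  have hY : E ^ m * (∑ j ∈ Finset.range m, a ^ j) * δ ≤ 7 * Real.exp 6 := by
    have h1 : E ^ m = Real.exp 6 := by
      simp only [hE]
      rw [← Real.exp_nat_mul, mul_div_cancel₀ _ hm0.ne']
    have h2 : (∑ j ∈ Finset.range m, a ^ j) * (A0 / m) ≤ 1 := by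
      have h3 := mul_neg_geom_sum a m
      have h4 : 1 - a = A0 / m := by simp only [ha]; ring
      rw [h4] at h3
      rw [mul_comm, h3]
      have := pow_nonneg ha0 m
      linarith
    have h5 : δ ≤ 7 * (A0 / m) := by
      simp only [hδ]
      rw [mul_div_assoc']
      gcongr
      linarith
    have hS0 : 0 ≤ ∑ j ∈ Finset.range m, a ^ j := Finset.sum_nonneg fun j _ => pow_nonneg ha0 j
    rw [h1]
    calc Real.exp 6 * (∑ j ∈ Finset.range m, a ^ j) * δ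
        ≤ Real.exp 6 * (∑ j ∈ Finset.range m, a ^ j) * (7 * (A0 / m)) := by
          gcongr
      _ = 7 * Real.exp 6 * ((∑ j ∈ Finset.range m, a ^ j) * (A0 / m)) := by ring
      _ ≤ 7 * Real.exp 6 * 1 := by gcongr
      _ = _ := by ring
  have ham : a ^ m ≤ Real.exp (-A0) := by
    have hAm : A0 ≤ m := by
      have : A0 / m ≤ 1 := by
        simp only [ha] at ha0
        linarith
      rwa [div_le_one hm0] at this
    exact Real.one_sub_div_pow_le_exp_neg hAm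
  have hΨz : Ψ z ≤ ENNReal.ofReal (4 * Real.exp (1 - R0)) := by
    calc Ψ z ≤ ENNReal.ofReal (Real.exp (-R0)) * (ENNReal.ofReal (Real.exp 1) +
          ENNReal.ofReal (Real.exp 1) + ENNReal.ofReal (Real.exp 1) +
          ENNReal.ofReal (Real.exp 1)) := by
          simp only [hΨ]
          gcongr <;> exact psi_le hσ hz _
      _ = _ := by
          rw [← ENNReal.ofReal_add (by positivity) (by positivity),
            ← ENNReal.ofReal_add (by positivity) (by positivity),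
            ← ENNReal.ofReal_add (by positivity) (by positivity),
            ← ENNReal.ofReal_mul (by positivity)]
          congr 1
          rw [sub_eq_add_neg, Real.exp_add]
          ring
  calc _ ≤ ENNReal.ofReal (Real.exp (-A0)) + ENNReal.ofReal (7 * Real.exp 6) *
        ENNReal.ofReal (4 * Real.exp (1 - R0)) := by
        gcongr
    _ = _ := by
        rw [← ENNReal.ofReal_mul (by positivity), ← ENNReal.ofReal_add (by positivity)
          (by positivity)]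
        congr 2
        have : Real.exp (7 - R0) = Real.exp 6 * Real.exp (1 - R0) := by
          rw [← Real.exp_add]
          congr 1
          ring
        rw [this]
        ring

/-- the constant `T` -/
noncomputable def TT : ℝ≥0∞ := ∑' n : ℤ, ENNReal.ofReal (Real.exp (1 - |(n : ℝ)| / 8))

lemma TT_lt_top : TT < ⊤ := by
  have h : Summable (fun n : ℤ => Real.exp (1 - |(n : ℝ)| / 8)) := by
    have h0 : Summable (fun n : ℕ => Real.exp (1 - (n : ℝ) / 8)) := by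
      have h1 : Summable (fun n : ℕ => Real.exp 1 * Real.exp (-1 / 8) ^ n) :=
        (summable_geometric_of_lt_one (Real.exp_pos _).le
          (Real.exp_lt_one_iff.mpr (by norm_num))).mul_left _
      refine h1.congr fun n => ?_
      rw [← Real.exp_nat_mul, ← Real.exp_add]
      congr 1
      ring
    refine Summable.of_nat_of_neg ?_ ?_
    · refine h0.congr fun n => ?_
      simp
    · refine h0.congr fun n => ?_
      simp
  unfold TT
  rw [← ENNReal.ofReal_tsum_of_nonneg (fun n => (Real.exp_pos _).le) h]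
  exact ENNReal.ofReal_lt_top

lemma TT_shift (q : ℤ) : ∑' n : ℤ, ENNReal.ofReal (Real.exp (1 - |(n : ℝ) - q| / 8)) = TT := by
  unfold TT
  rw [← Equiv.tsum_eq (Equiv.subRight q) (fun n : ℤ => ENNReal.ofReal (Real.exp (1 - |(n : ℝ)| / 8)))]
  refine tsum_congr fun n => ?_
  simp

lemma interp {t A B C : ℝ≥0∞} (h1 : t ≤ A) (h2 : t ≤ B) (h3 : t ≤ C) :
    t ≤ A ^ (1 / 2 : ℝ) * (B ^ (1 / 4 : ℝ) * C ^ (1 / 4 : ℝ)) := by
  calc t = t ^ (1 / 2 : ℝ) * (t ^ (1 / 4 : ℝ) * t ^ (1 / 4 : ℝ)) := by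
        rw [← ENNReal.rpow_add_of_nonneg _ _ (by norm_num) (by norm_num),
          ← ENNReal.rpow_add_of_nonneg _ _ (by norm_num) (by norm_num)]
        norm_num
    _ ≤ _ := by gcongr

lemma rpow_ofReal_exp (x r : ℝ) (hr : 0 ≤ r) :
    (ENNReal.ofReal (Real.exp x)) ^ r = ENNReal.ofReal (Real.exp (x * r)) := by
  rw [ENNReal.ofReal_rpow_of_nonneg (Real.exp_pos _).le hr, ← Real.exp_mul]

/-- the main step -/
lemma step (hq : ∀ x, ∫⁻ a, qq β a x ∂ν = 1) {g : (ℕ → Pt → ℝ) → ℝ} (hg : Measurable g)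
    (hg0 : ∀ e, 1 / 2 ≤ g e) (hg1 : ∀ e, g e ≤ 3 / 2) {ℓ m σ : ℕ} (hm : 1 ≤ m) (hℓ : 1 ≤ ℓ)
    (hσm : ℓ * m ≤ σ ^ 2) {A0 R0 : ℝ} (hA0 : 1 ≤ A0) (hR0 : 0 ≤ R0) (Q : Pt)
    (hinv : ∫ e, (g e)⁻¹ ∂(muE ν) ≤ 1 + 4 / m)
    (h6 : ∀ z, EP ℓ (fun l => ∫ e, wt β e l * g e ∂(muE ν)) z ≤ 1 + 6 / m)
    (hA : ∀ z : Pt, |(z.1 : ℝ) - σ * Q.1| ≤ R0 * σ → |(z.2 : ℝ) - σ * Q.2| ≤ R0 * σ →
      EP ℓ (fun l => ∫ e, wt β e l * g e ∂(muE ν)) z ≤ 1 - A0 / m)
    (h10 : ∀ z, EP ℓ (fun l => ∫ e, wt β e l * g e ^ 2 ∂(muE ν)) z ≤ 1 + 10 / m)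
    (hbd : ENNReal.ofReal (Real.exp 2) * (ENNReal.ofReal (Real.exp (-A0) +
      28 * Real.exp (7 - R0))) ^ (1 / 4 : ℝ) * (TT * TT) ≤ 2⁻¹)
    (w : Pt → ℝ≥0∞) (hw : ∀ z, bx σ z ≠ Q → w z = 0) :
    ∑' b, ∫⁻ e, (∑' z, w z * ZZ β (m * ℓ) e (ind σ b) z) ^ (1 / 2 : ℝ) ∂(muE ν) ≤
        2⁻¹ * (∑' z, w z) ^ (1 / 2 : ℝ) := by
  have hm0 : (0 : ℝ) < m := by exact_mod_cast hm
  have hσ : 0 < σ := by
    have : 0 < σ ^ 2 := lt_of_lt_of_le (Nat.mul_pos hℓ hm) hσm
    exact Nat.pos_of_ne_zero fun h => by simp [h] at this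
  have hgp : ∀ e, 0 < g e := fun e => lt_of_lt_of_le (by norm_num) (hg0 e)
  set G : (ℕ → Pt → ℝ) → ℝ≥0∞ := fun e => ENNReal.ofReal (g e) with hG
  have hGm : Measurable G := hg.ennreal_ofReal
  have hG0 : ∀ e, G e ≠ 0 := fun e => by
    simp only [hG]
    exact (ENNReal.ofReal_pos.mpr (hgp e)).ne'
  have hGt : ∀ e, G e ≠ ⊤ := fun e => ENNReal.ofReal_ne_top
  have hpsi : ∀ j z, KK β ν ℓ G (psi σ Q j) z ≤ ENNReal.ofReal (Real.exp (6 / m)) * psi σ Q j z :=
    fun j z => KK_psi hq hg (fun e => (hgp e).le) hg1 hm hℓ hσm h10 Q j z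
  -- the cost of the change of measure
  have hc : ((∫⁻ e, (G e)⁻¹ ∂(muE ν)) ^ (1 / 2 : ℝ)) ^ m ≤ ENNReal.ofReal (Real.exp 2) := by
    have h1 : ∫⁻ e, (G e)⁻¹ ∂(muE ν) ≤ ENNReal.ofReal (Real.exp (4 / m)) := by
      have h2 : ∀ e, (G e)⁻¹ = ENNReal.ofReal ((g e)⁻¹) := fun e =>
        (ENNReal.ofReal_inv_of_pos (hgp e)).symm
      rw [lintegral_congr h2, ← ofReal_integral_eq_lintegral_ofReal]
      · refine ENNReal.ofReal_le_ofReal (hinv.trans ?_)
        have := Real.add_one_le_exp (4 / (m : ℝ))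
        linarith
      · refine Integrable.of_bound hg.inv.aestronglyMeasurable 2
          (Eventually.of_forall fun e => ?_)
        rw [Real.norm_eq_abs, abs_of_pos (inv_pos.mpr (hgp e))]
        rw [inv_le_comm₀ (hgp e) (by norm_num)]
        have := hg0 e
        linarith
      · exact Eventually.of_forall fun e => (inv_pos.mpr (hgp e)).le
    calc ((∫⁻ e, (G e)⁻¹ ∂(muE ν)) ^ (1 / 2 : ℝ)) ^ m
        ≤ ((ENNReal.ofReal (Real.exp (4 / m))) ^ (1 / 2 : ℝ)) ^ m := by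
          gcongr
      _ = ENNReal.ofReal (Real.exp 2) := by
          rw [rpow_half_ofReal_exp, ← ENNReal.ofReal_pow (Real.exp_pos _).le, ← Real.exp_nat_mul]
          congr 2
          field_simp
          norm_num
  set N : ℝ≥0∞ := ENNReal.ofReal (Real.exp (-A0) + 28 * Real.exp (7 - R0)) with hN
  -- pointwise bound
  have hpt : ∀ (b z : Pt), bx σ z = Q → (KK β ν ℓ G)^[m] (ind σ b) z ≤
      N ^ (1 / 2 : ℝ) * (ENNReal.ofReal (Real.exp (8 - |(b.1 : ℝ) - Q.1|)) ^ (1 / 4 : ℝ) *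
        ENNReal.ofReal (Real.exp (8 - |(b.2 : ℝ) - Q.2|)) ^ (1 / 4 : ℝ)) := by
    intro b z hz
    refine interp ?_ (far' hGm hm hσ Q hpsi hz b).1 (far' hGm hm hσ Q hpsi hz b).2
    refine le_trans ?_ (near hq hg (fun e => (hgp e).le) hg1 hm hσ hA0 hR0 Q h6 hA hpsi hz)
    refine KK_iter_mono ℓ G (fun y => ?_) m z
    unfold ind
    split_ifs
    · exact le_rfl
    · exact zero_le
  have hb : ∀ b : Pt, ∫⁻ e, (∑' z, w z * ZZ β (m * ℓ) e (ind σ b) z) ^ (1 / 2 : ℝ) ∂(muE ν) ≤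
      ENNReal.ofReal (Real.exp 2) * N ^ (1 / 4 : ℝ) * (∑' z, w z) ^ (1 / 2 : ℝ) *
        (ENNReal.ofReal (Real.exp (1 - |(b.1 : ℝ) - Q.1| / 8)) *
        ENNReal.ofReal (Real.exp (1 - |(b.2 : ℝ) - Q.2| / 8))) := by
    intro b
    refine (blocks ℓ hGm hG0 hGt w m (ind σ b)).trans ?_
    have h1 : (∑' z, w z * (KK β ν ℓ G)^[m] (ind σ b) z) ≤
        (∑' z, w z) * (N ^ (1 / 2 : ℝ) *
        (ENNReal.ofReal (Real.exp (8 - |(b.1 : ℝ) - Q.1|)) ^ (1 / 4 : ℝ) *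
        ENNReal.ofReal (Real.exp (8 - |(b.2 : ℝ) - Q.2|)) ^ (1 / 4 : ℝ))) := by
      rw [← ENNReal.tsum_mul_right]
      refine ENNReal.tsum_le_tsum fun z => ?_
      by_cases hz : bx σ z = Q
      · exact mul_le_mul' le_rfl (hpt b z hz)
      · rw [hw z hz, zero_mul]
        exact zero_le
    calc _ ≤ ENNReal.ofReal (Real.exp 2) * ((∑' z, w z) * (N ^ (1 / 2 : ℝ) *
        (ENNReal.ofReal (Real.exp (8 - |(b.1 : ℝ) - Q.1|)) ^ (1 / 4 : ℝ) *
        ENNReal.ofReal (Real.exp (8 - |(b.2 : ℝ) - Q.2|)) ^ (1 / 4 : ℝ)))) ^ (1 / 2 : ℝ) := by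
          gcongr
      _ = _ := by
          rw [ENNReal.mul_rpow_of_nonneg _ _ (by norm_num),
            ENNReal.mul_rpow_of_nonneg _ _ (by norm_num),
            ENNReal.mul_rpow_of_nonneg _ _ (by norm_num), ← ENNReal.rpow_mul, ← ENNReal.rpow_mul,
            ← ENNReal.rpow_mul, rpow_ofReal_exp _ _ (by norm_num),
            rpow_ofReal_exp _ _ (by norm_num)]
          have e1 : (1 / 2 : ℝ) * (1 / 2) = 1 / 4 := by norm_num
          have e2 : ∀ t : ℝ, (8 - t) * (1 / 4 * (1 / 2)) = 1 - t / 8 := fun t => by ring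
          rw [e1, e2, e2]
          ring
  calc ∑' b, ∫⁻ e, (∑' z, w z * ZZ β (m * ℓ) e (ind σ b) z) ^ (1 / 2 : ℝ) ∂(muE ν)
      ≤ ∑' b : Pt, ENNReal.ofReal (Real.exp 2) * N ^ (1 / 4 : ℝ) * (∑' z, w z) ^ (1 / 2 : ℝ) *
        (ENNReal.ofReal (Real.exp (1 - |(b.1 : ℝ) - Q.1| / 8)) *
        ENNReal.ofReal (Real.exp (1 - |(b.2 : ℝ) - Q.2| / 8))) := ENNReal.tsum_le_tsum hb
    _ = ENNReal.ofReal (Real.exp 2) * N ^ (1 / 4 : ℝ) * (∑' z, w z) ^ (1 / 2 : ℝ) *
        (TT * TT) := by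
        rw [ENNReal.tsum_mul_left]
        congr 1
        rw [ENNReal.tsum_prod']
        simp only
        have : ∀ n : ℤ, (∑' k : ℤ, ENNReal.ofReal (Real.exp (1 - |(n : ℝ) - Q.1| / 8)) *
            ENNReal.ofReal (Real.exp (1 - |(k : ℝ) - Q.2| / 8))) =
            ENNReal.ofReal (Real.exp (1 - |(n : ℝ) - Q.1| / 8)) * TT := by
          intro n
          rw [ENNReal.tsum_mul_left, TT_shift]
        simp only [this]
        rw [ENNReal.tsum_mul_right, TT_shift]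
    _ = (ENNReal.ofReal (Real.exp 2) * N ^ (1 / 4 : ℝ) * (TT * TT)) *
        (∑' z, w z) ^ (1 / 2 : ℝ) := by ring
    _ ≤ _ := by gcongr

lemma exists_R : ∃ R : ℝ, 1 ≤ R ∧ ENNReal.ofReal (Real.exp 2) *
    (ENNReal.ofReal (Real.exp (-R) + 28 * Real.exp (7 - R))) ^ (1 / 4 : ℝ) * (TT * TT) ≤ 2⁻¹ := by
  set T : ℝ := TT.toReal with hT
  have hTT : TT = ENNReal.ofReal T := (ENNReal.ofReal_toReal TT_lt_top.ne).symm
  have hT0 : 0 ≤ T := ENNReal.toReal_nonneg
  set c : ℝ := (1 + 28 * Real.exp 7) ^ (1 / 4 : ℝ) with hc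
  have hc0 : 0 ≤ c := by positivity
  set B : ℝ := Real.exp 2 * c * (T * T) with hB
  have hB0 : 0 ≤ B := by positivity
  refine ⟨8 * B + 4, by linarith, ?_⟩
  have h1 : Real.exp (-(8 * B + 4)) + 28 * Real.exp (7 - (8 * B + 4)) =
      (1 + 28 * Real.exp 7) * Real.exp (-(8 * B + 4)) := by
    rw [sub_eq_add_neg, Real.exp_add]
    ring
  have h2 : (Real.exp (-(8 * B + 4)) + 28 * Real.exp (7 - (8 * B + 4))) ^ (1 / 4 : ℝ) =
      c * Real.exp (-(2 * B + 1)) := by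
    rw [h1, Real.mul_rpow (by positivity) (by positivity), ← Real.exp_mul]
    congr 2
    ring
  rw [ENNReal.ofReal_rpow_of_nonneg (by positivity) (by norm_num), h2, hTT,
    ← ENNReal.ofReal_mul (by positivity), ← ENNReal.ofReal_mul (by positivity),
    ← ENNReal.ofReal_mul (by positivity)]
  have h3 : Real.exp 2 * (c * Real.exp (-(2 * B + 1))) * (T * T) ≤ 1 / 2 := by
    have h4 : Real.exp 2 * (c * Real.exp (-(2 * B + 1))) * (T * T) =
        B * Real.exp (-(2 * B + 1)) := by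
      simp only [hB]
      ring
    rw [h4, Real.exp_neg, ← div_eq_mul_inv, div_le_iff₀ (Real.exp_pos _)]
    have := Real.add_one_le_exp (2 * B + 1)
    linarith
  calc _ ≤ ENNReal.ofReal (1 / 2) := ENNReal.ofReal_le_ofReal h3
    _ = 2⁻¹ := by
      rw [one_div, ENNReal.ofReal_inv_of_pos (by norm_num)]
      norm_num

end CG

theorem coarse : ∃ A0 R0 : ℝ, 0 < A0 ∧ 0 < R0 ∧
    ∀ (ν : Measure (Pt → ℝ)) [IsProbabilityMeasure ν] (β : ℝ),
    (∀ x, Integrable (fun ω : Pt → ℝ => Real.exp (β * ω x - β ^ 2 / 2)) ν ∧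
      ∫ ω, Real.exp (β * ω x - β ^ 2 / 2) ∂ν = 1) →
    ∀ ℓ m σ : ℕ, 1 ≤ ℓ → 1 ≤ m → ℓ * m ≤ σ ^ 2 →
    ∀ g : Pt → (ℕ → Pt → ℝ) → ℝ, (∀ Q, Measurable (g Q)) →
    (∀ Q e, 1 / 2 ≤ g Q e ∧ g Q e ≤ 3 / 2) →
    (∀ Q, ∫ e, (g Q e)⁻¹ ∂(muE ν) ≤ 1 + 4 / m) →
    (∀ Q z, EP ℓ (fun l => ∫ e, wt β e l * g Q e ∂(muE ν)) z ≤ 1 + 6 / m) →
    (∀ Q z : Pt, |(z.1 : ℝ) - σ * Q.1| ≤ R0 * σ → |(z.2 : ℝ) - σ * Q.2| ≤ R0 * σ →
      EP ℓ (fun l => ∫ e, wt β e l * g Q e ∂(muE ν)) z ≤ 1 - A0 / m) →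
    (∀ Q z, EP ℓ (fun l => ∫ e, wt β e l * g Q e ^ 2 ∂(muE ν)) z ≤ 1 + 10 / m) →
    ∀ k : ℕ, ∫ e, Real.sqrt (EP (k * (m * ℓ)) (fun l => wt β e l) 0) ∂(muE ν) ≤ (1 / 2) ^ k := by
  obtain ⟨R, hR, hbd⟩ := CG.exists_R
  refine ⟨R, R, by linarith, by linarith, ?_⟩
  intro ν _ β hν ℓ m σ hℓ hm hσm g hg hgb hinv h6 hA h10 k
  have hq : ∀ x, ∫⁻ a, CG.qq β a x ∂ν = 1 := by
    intro x
    unfold CG.qq
    rw [← ofReal_integral_eq_lintegral_ofReal (hν x).1
      (Eventually.of_forall fun a => (Real.exp_pos _).le), (hν x).2, ENNReal.ofReal_one]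
  have hstep := CG.coarse_induct (β := β) (ν := ν) σ (m * ℓ) (fun Q w hw =>
    CG.step hq (hg Q) (fun e => (hgb Q e).1) (fun e => (hgb Q e).2) hm hℓ hσm hR (by linarith) Q
      (hinv Q) (h6 Q) (hA Q) (h10 Q) hbd w hw) k (CG.bx σ 0) (fun z => if z = 0 then 1 else 0)
      (fun z hz => if_neg fun h => hz (by rw [h]))
  have h1 : ∀ e : ℕ → Pt → ℝ, (∑' z : Pt, (if z = 0 then (1 : ℝ≥0∞) else 0) *
      CG.ZZ β (k * (m * ℓ)) e (fun _ => 1) z) ^ (1 / 2 : ℝ) =
      ENNReal.ofReal (Real.sqrt (EP (k * (m * ℓ)) (fun l => wt β e l) 0)) := by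
    intro e
    rw [tsum_eq_single 0 (fun z hz => by rw [if_neg hz, zero_mul]), if_pos rfl, one_mul,
      ← CG.ofReal_EP_wt, Real.sqrt_eq_rpow, ENNReal.ofReal_rpow_of_nonneg
        (CG.EP_nonneg' _ _ _ fun l => (CG.wt_pos' l e).le) (by norm_num)]
  rw [lintegral_congr h1, tsum_ite_eq] at hstep
  have hmeas : Measurable (fun e : ℕ → Pt → ℝ =>
      Real.sqrt (EP (k * (m * ℓ)) (fun l => wt β e l) 0)) := by
    have h2 : (fun e : ℕ → Pt → ℝ => Real.sqrt (EP (k * (m * ℓ)) (fun l => wt β e l) 0)) =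
        fun e => Real.sqrt ((CG.ZZ β (k * (m * ℓ)) e (fun _ => 1) 0).toReal) := by
      funext e
      rw [← CG.ofReal_EP_wt, ENNReal.toReal_ofReal
        (CG.EP_nonneg' _ _ _ fun l => (CG.wt_pos' l e).le)]
    rw [h2]
    exact ((CG.measurable_ZZ β _ _ _).ennreal_toReal).sqrt
  rw [integral_eq_lintegral_of_nonneg_ae (Eventually.of_forall fun e => Real.sqrt_nonneg _)
    hmeas.aestronglyMeasurable]
  refine ENNReal.toReal_le_of_le_ofReal (by positivity) (hstep.trans (le_of_eq ?_))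
  rw [ENNReal.one_rpow, mul_one, ENNReal.ofReal_pow (by norm_num), one_div,
    ENNReal.ofReal_inv_of_pos (by norm_num)]
  norm_num

end Pool.Agent.Helper98.LogPoly
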